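import Pool.Agent.Helper36.AG.ErLip1
import Pool.Agent.Helper36.AC.L3

/-!
# AG-E1: `loc1`, the comparison with the linear family, chart 1, both signs of `κ`
-/

open MeasureTheory Real Set Filter Topology

set_option autoImplicit false

namespace Pool.Agent.Helper92.AG

open Pool.Agent.Helper22.AE
open Pool.Agent.Helper92.GC (dt tp Tq uu tt arc dd)
open Pool.Agent.Helper75.TW (m20 IsMul20 m20_shift m20_congr)
open Pool.Agent.Helper60.LT (Fr Tf xf yf df vf fr sl Cv Hom)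
open Pool.Agent.Helper60.QL (R3 lf ln mul20_exp)
open Pool.Agent.Helper3.AC

private theorem ee_add36 (x y : ℝ) : ee (x + y) = ee x * ee y := by
  unfold ee
  rw [← Complex.exp_add]
  congr 1
  push_cast
  ring

/-- in a sector of half width `w` the family of forms in a box of side `δ X` is the linear family -/
theorem loc1s {s₀ c₁ B₀ B κ₀ lam : ℝ} (hs₀ : s₀ = 1 ∨ s₀ = -1) (hc : 0 < c₁) (hB₀ : 1 ≤ B₀) (hB : 1 ≤ B) (hκ : 0 < κ₀) (hl : 1 ≤ lam) :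
    ∃ C w₀ : ℝ, 1 ≤ C ∧ 0 < w₀ ∧ w₀ ≤ 1 ∧
    ∀ h : ℝ × ℝ → ℝ, HG c₁ B₀ h → ∀ θ : ℝ, κ₀ ≤ s₀ * ka h θ → ∀ (X H w δ t₀ : ℝ) (A A' : R3) (S : Finset (ℤ × ℤ)),
    0 < X → 0 < H → 0 < w → w ≤ w₀ → A ∈ OS s₀ B X → A' ∈ OS s₀ B X → |A.1 - A'.1| ≤ δ * X → |A.2.1 - A'.2.1| ≤ δ * X → |A.2.2 - A'.2.2| ≤ δ * X →
    (∀ k ∈ S, 0 < uu 0 k ∧ uu 0 k ≤ lam * H ∧ |tt 0 k - t₀| ≤ w) → δ * X * H * w ^ 5 ≤ 1 →
    qf h θ t₀ S A' ≤ C * lf t₀ S (fun k => ee (uu 0 k * hf h (fA h θ A) (tt 0 k - t₀))) (A' - A) ∧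
    lf t₀ S (fun k => ee (uu 0 k * hf h (fA h θ A) (tt 0 k - t₀))) (A' - A) ≤ C * qf h θ t₀ S A' := by
  obtain ⟨C₀, w₀, hC, h0, h1, hE⟩ := Pool.Agent.Helper36.AG.er_lips hs₀ hc hκ hB₀ hB
  refine ⟨1 + exp (16100 * (2 * C₀ * lam)) ^ 20, w₀, by linarith [pow_pos (exp_pos (16100 * (2 * C₀ * lam))) 20], h0, h1, ?_⟩
  intro h hh θ hθ X H w δ t₀ A A' S hX hH hw hw0 hA hA' d1 d2 d3 hS hsm
  obtain ⟨E1, E2⟩ := hE h hh θ hθ X δ A A' hX hA hA' d1 d2 d3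
  have hδ : 0 ≤ δ := nonneg_of_mul_nonneg_left ((abs_nonneg _).trans d1) hX
  have hU : 0 < lam * H := by positivity
  have hmem : ∀ t ∈ Icc (t₀ - w) (t₀ + w), |t - t₀| ≤ w := by
    intro t ht
    rw [abs_le]
    constructor <;> linarith [ht.1, ht.2]
  have hS' : ∀ k ∈ S, 0 < uu 0 k ∧ uu 0 k ≤ lam * H ∧ t₀ - w ≤ tt 0 k ∧ tt 0 k ≤ t₀ + w := by
    intro k hk
    obtain ⟨a, b, c⟩ := hS k hk
    have := abs_le.1 c
    exact ⟨a, b, by linarith, by linarith⟩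
  have hbd : ∀ s : ℝ, |s| ≤ 1 → ∀ t ∈ Icc (t₀ - w) (t₀ + w),
      |s * (er h θ A' (t - t₀) - er h θ A (t - t₀))| ≤ 2 * C₀ * lam / (lam * H) := by
    intro s hs t ht
    have a1 := hmem t ht
    have a2 := E1 (t - t₀) (a1.trans hw0)
    rw [abs_sub_comm] at a2
    have a3 : |t - t₀| ^ 5 ≤ w ^ 5 := pow_le_pow_left₀ (abs_nonneg _) a1 5
    rw [abs_mul, le_div_iff₀ hU]
    have a4 : |er h θ A' (t - t₀) - er h θ A (t - t₀)| ≤ C₀ * δ * X * w ^ 5 :=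
      a2.trans (mul_le_mul_of_nonneg_left a3 (by positivity))
    have a5 : |er h θ A' (t - t₀) - er h θ A (t - t₀)| * H ≤ C₀ := by
      have b1 := mul_le_mul_of_nonneg_right a4 hH.le
      have b2 : C₀ * (δ * X * H * w ^ 5) ≤ C₀ * 1 := mul_le_mul_of_nonneg_left hsm (by linarith)
      nlinarith
    have a6 : 0 ≤ |er h θ A' (t - t₀) - er h θ A (t - t₀)| * H := by positivity
    have a7 : |s| * (|er h θ A' (t - t₀) - er h θ A (t - t₀)| * H) ≤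
        1 * (|er h θ A' (t - t₀) - er h θ A (t - t₀)| * H) := mul_le_mul_of_nonneg_right hs a6
    have hl0 : 0 ≤ lam := by linarith
    have a8 := mul_le_mul_of_nonneg_left (a7.trans (by linarith : 1 * (|er h θ A' (t - t₀) - er h θ A (t - t₀)| * H) ≤ C₀)) hl0
    nlinarith
  have hlp : ∀ s : ℝ, |s| ≤ 1 → ∀ x ∈ Icc (t₀ - w) (t₀ + w), ∀ y ∈ Icc (t₀ - w) (t₀ + w),
      |s * (er h θ A' (x - t₀) - er h θ A (x - t₀)) - s * (er h θ A' (y - t₀) - er h θ A (y - t₀))| *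
        (t₀ + w - (t₀ - w)) ≤ 2 * C₀ * lam / (lam * H) * |x - y| := by
    intro s hs x hx y hy
    have a1 := E2 (x - t₀) (y - t₀) w (hmem x hx) (hmem y hy) hw0
    have e1 : s * (er h θ A' (x - t₀) - er h θ A (x - t₀)) - s * (er h θ A' (y - t₀) - er h θ A (y - t₀)) =
        -s * (er h θ A (x - t₀) - er h θ A' (x - t₀) - (er h θ A (y - t₀) - er h θ A' (y - t₀))) := by ring
    have e2 : x - t₀ - (y - t₀) = x - y := by ring
    rw [e2] at a1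
    rw [e1, abs_mul, abs_neg, show t₀ + w - (t₀ - w) = 2 * w by ring, div_mul_eq_mul_div,
      le_div_iff₀ hU]
    obtain ⟨D, hD⟩ : ∃ D, D = |er h θ A (x - t₀) - er h θ A' (x - t₀) - (er h θ A (y - t₀) - er h θ A' (y - t₀))| :=
      ⟨_, rfl⟩
    rw [← hD] at a1 ⊢
    have hD0 : 0 ≤ D := by rw [hD]; exact abs_nonneg _
    have a2 : D * w * H ≤ C₀ * |x - y| := by
      have b1 := mul_le_mul_of_nonneg_right (mul_le_mul_of_nonneg_right a1 hw.le) hH.le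
      have b2 : C₀ * |x - y| * (δ * X * H * w ^ 5) ≤ C₀ * |x - y| * 1 :=
        mul_le_mul_of_nonneg_left hsm (by positivity)
      nlinarith
    have a3 : |s| * (D * w * H) ≤ 1 * (D * w * H) := mul_le_mul_of_nonneg_right hs (by positivity)
    have a4 := mul_le_mul_of_nonneg_left (a3.trans (by linarith : 1 * (D * w * H) ≤ C₀ * |x - y|))
      (by linarith : 0 ≤ lam)
    nlinarith
  have hm1 := mul20_exp (S := S) (β := 0) (U := lam * H) (t₁ := t₀ - w) (t₂ := t₀ + w)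
    (B := 2 * C₀ * lam) hU (by linarith) hS'
    (χ := fun t => 1 * (er h θ A' (t - t₀) - er h θ A (t - t₀))) (hbd 1 (by norm_num))
    (hlp 1 (by norm_num))
  have hm2 := mul20_exp (S := S) (β := 0) (U := lam * H) (t₁ := t₀ - w) (t₂ := t₀ + w)
    (B := 2 * C₀ * lam) hU (by linarith) hS'
    (χ := fun t => -1 * (er h θ A' (t - t₀) - er h θ A (t - t₀))) (hbd (-1) (by norm_num))
    (hlp (-1) (by norm_num))
  obtain ⟨c, hcc⟩ : ∃ c : ℝ × ℝ, c = (a0 h θ A' - a0 h θ A - t₀ * (a1 h θ A' - a1 h θ A),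
    a1 h θ A' - a1 h θ A) := ⟨_, rfl⟩
  have hph : ∀ k ∈ S, uu 0 k * hf h (fA h θ A') (tt 0 k - t₀) = dt k c +
      (uu 0 k * hf h (fA h θ A) (tt 0 k - t₀) + ln t₀ (A' - A) k) +
      uu 0 k * (1 * (er h θ A' (tt 0 k - t₀) - er h θ A (tt 0 k - t₀))) := by
    intro k hk
    rw [phase_eq (A := A) (A' := A') (hS k hk).1, hcc, one_mul]
  have hph2 : ∀ k ∈ S, uu 0 k * hf h (fA h θ A) (tt 0 k - t₀) + ln t₀ (A' - A) k = dt k (-c) +
      uu 0 k * hf h (fA h θ A') (tt 0 k - t₀) +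
      uu 0 k * (-1 * (er h θ A' (tt 0 k - t₀) - er h θ A (tt 0 k - t₀))) := by
    intro k hk
    rw [hph k hk]
    have : dt k (-c) = -dt k c := by
      unfold dt
      rw [Prod.fst_neg, Prod.snd_neg]
      ring
    rw [this]
    ring
  have nn : ∀ a : ℤ × ℤ → ℂ, 0 ≤ m20 S a := fun a => Pool.Agent.Helper75.TW.m20_nonneg S a
  constructor
  · have e1 : qf h θ t₀ S A' = m20 S (fun k => ee (uu 0 k * (1 * (er h θ A' (tt 0 k - t₀) - er h θ A (tt 0 k - t₀)))) *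
        (ee (uu 0 k * hf h (fA h θ A) (tt 0 k - t₀)) * ee (ln t₀ (A' - A) k))) := by
      rw [← m20_shift S _ c]
      unfold qf mf
      refine m20_congr fun k hk => ?_
      rw [hph k hk, ee_add36, ee_add36, ee_add36]
      ring
    rw [e1]
    refine (hm1.2 _).trans ?_
    unfold lf
    have := nn (fun k => ee (uu 0 k * hf h (fA h θ A) (tt 0 k - t₀)) * ee (ln t₀ (A' - A) k))
    linarith
  · have e1 : lf t₀ S (fun k => ee (uu 0 k * hf h (fA h θ A) (tt 0 k - t₀))) (A' - A) =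
        m20 S (fun k => ee (uu 0 k * (-1 * (er h θ A' (tt 0 k - t₀) - er h θ A (tt 0 k - t₀)))) *
        (ee (uu 0 k * hf h (fA h θ A') (tt 0 k - t₀)))) := by
      rw [← m20_shift S _ (-c)]
      unfold lf
      refine m20_congr fun k hk => ?_
      rw [← ee_add36, hph2 k hk, ee_add36, ee_add36]
      ring
    rw [e1]
    refine (hm2.2 _).trans ?_
    unfold qf mf
    have := nn (fun k => ee (uu 0 k * hf h (fA h θ A') (tt 0 k - t₀)))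
    linarith

/-- in a sector of half width `w` the family of forms in a box of side `δ X` is the linear family (chart 1) -/
theorem loc1 {c₁ B₀ B κ₀ lam : ℝ} (hc : 0 < c₁) (hB₀ : 1 ≤ B₀) (hB : 1 ≤ B) (hκ : 0 < κ₀) (hl : 1 ≤ lam) : ∃ C w₀ : ℝ, 1 ≤ C ∧ 0 < w₀ ∧ w₀ ≤ 1 ∧
    ∀ h : ℝ × ℝ → ℝ, HG c₁ B₀ h → ∀ s : ℝ, (s = 1 ∨ s = -1) → ∀ θ : ℝ, κ₀ ≤ s * ka h θ → ∀ (X H w δ t₀ : ℝ) (A A' : R3) (S : Finset (ℤ × ℤ)),
    0 < X → 0 < H → 0 < w → w ≤ w₀ → A ∈ OS s B X → A' ∈ OS s B X → |A.1 - A'.1| ≤ δ * X → |A.2.1 - A'.2.1| ≤ δ * X → |A.2.2 - A'.2.2| ≤ δ * X →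
    (∀ k ∈ S, 0 < uu 0 k ∧ uu 0 k ≤ lam * H ∧ |tt 0 k - t₀| ≤ w) → δ * X * H * w ^ 5 ≤ 1 →
    qf h θ t₀ S A' ≤ C * lf t₀ S (fun k => ee (uu 0 k * hf h (fA h θ A) (tt 0 k - t₀))) (A' - A) ∧
    lf t₀ S (fun k => ee (uu 0 k * hf h (fA h θ A) (tt 0 k - t₀))) (A' - A) ≤ C * qf h θ t₀ S A' := by
  obtain ⟨C₁, w₁, a1, a2, a3, H1⟩ := loc1s (s₀ := 1) (Or.inl rfl) hc hB₀ hB hκ hl
  obtain ⟨C₂, w₂, b1, b2, b3, H2⟩ := loc1s (s₀ := -1) (Or.inr rfl) hc hB₀ hB hκ hl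
  refine ⟨C₁ + C₂, min w₁ w₂, by linarith, lt_min a2 b2, (min_le_left _ _).trans a3, ?_⟩
  intro h hh s hs θ hθ X H w δ t₀ A A' S hX hH hw hw0 hA hA' d1 d2 d3 hS hsm
  have n1 : 0 ≤ lf t₀ S (fun k => ee (uu 0 k * hf h (fA h θ A) (tt 0 k - t₀))) (A' - A) :=
    Pool.Agent.Helper75.TW.m20_nonneg S _
  have n2 : 0 ≤ qf h θ t₀ S A' := Pool.Agent.Helper75.TW.m20_nonneg S _
  rcases hs with e | e
  · subst e
    obtain ⟨g1, g2⟩ := H1 h hh θ hθ X H w δ t₀ A A' S hX hH hw (hw0.trans (min_le_left _ _)) hA hA' d1 d2 d3 hS hsm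
    constructor
    · nlinarith
    · nlinarith
  · subst e
    obtain ⟨g1, g2⟩ := H2 h hh θ hθ X H w δ t₀ A A' S hX hH hw (hw0.trans (min_le_right _ _)) hA hA' d1 d2 d3 hS hsm
    constructor
    · nlinarith
    · nlinarith

end Pool.Agent.Helper92.AG
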